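import Pool.Agent.Results.MP_b004e2_gt.LevelGroups

/-!
Level-set-preserving homeomorphism groups: arbitrary clopen subsets of arbitrary manifolds.
-/

set_option autoImplicit false

namespace Pool.Agent.Y446.LG

open Set Topology BoundedContinuousFunction
open Pool.Agent.Results.MP_b004e2_gt.LevelGroups

/-- `z` is a local maximum of `f`. -/
def IsLM {X : Type} [TopologicalSpace X] (f : X → ℝ) (z : X) : Prop :=
  ∃ W ∈ 𝓝 z, ∀ y ∈ W, f y ≤ f z

theorem lm_countable {X : Type} [TopologicalSpace X] [SecondCountableTopology X] (f : X → ℝ) :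
    {c : ℝ | ∃ z, IsLM f z ∧ f z = c}.Countable := by
  have hB := TopologicalSpace.countable_countableBasis X
  refine (hB.image fun U => sSup (f '' U)).mono ?_
  rintro c ⟨z, ⟨W, hW, hmax⟩, rfl⟩
  obtain ⟨U, hU, hzU, hUW⟩ :=
    (TopologicalSpace.isBasis_countableBasis X).mem_nhds_iff.mp hW
  refine ⟨U, hU, ?_⟩
  have hg : IsGreatest (f '' U) (f z) := by
    refine ⟨⟨z, hzU, rfl⟩, ?_⟩
    rintro _ ⟨y, hy, rfl⟩
    exact hmax y (hUW hy)
  exact hg.csSup_eq

/-- The functions whose maximum on `K` is not `d`, in an open form. -/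
def avoid {X : Type} [TopologicalSpace X] (K : Set X) (d : ℝ) : Set (X →ᵇ ℝ) :=
  {f | (∃ x ∈ K, d < f x) ∨ ∀ x ∈ K, f x < d}

theorem isOpen_avoid {X : Type} [TopologicalSpace X] {K : Set X} (hK : IsCompact K) (d : ℝ) :
    IsOpen (avoid K d) := by
  have : avoid K d = (⋃ x ∈ K, {f : X →ᵇ ℝ | d < f x}) ∪ {f : X →ᵇ ℝ | ∀ x ∈ K, f x < d} := by
    ext f
    simp only [avoid, mem_ofPred_eq, mem_union, mem_iUnion, exists_prop]
  rw [this]
  refine (isOpen_biUnion fun x _ => ?_).union ?_
  · exact _root_.isOpen_lt continuous_const (continuous_eval_const x)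
  · rw [Metric.isOpen_iff]
    intro f hf
    rcases K.eq_empty_or_nonempty with rfl | hne
    · exact ⟨1, one_pos, fun g _ y hy => absurd hy (notMem_empty y)⟩
    · obtain ⟨y₀, hy₀, hmax⟩ := hK.exists_isMaxOn hne f.continuous.continuousOn
      have hgap : 0 < d - f y₀ := sub_pos.mpr (hf y₀ hy₀)
      refine ⟨d - f y₀, hgap, ?_⟩
      intro g hg y hy
      rw [Metric.mem_ball] at hg
      have h1 := (BoundedContinuousFunction.dist_coe_le_dist (f := g) (g := f) y)
      rw [Real.dist_eq] at h1
      have h3 := abs_le.mp h1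
      have h5 : f y ≤ f y₀ := hmax hy
      linarith [h3.2]

theorem dense_avoid {X : Type} [TopologicalSpace X] (K : Set X) (d : ℝ) :
    Dense (avoid K d) := by
  rw [Metric.dense_iff]
  intro f ε hε
  by_cases hf : f ∈ avoid K d
  · exact ⟨f, Metric.mem_ball_self hε, hf⟩
  · have h1 : ¬ ∀ x ∈ K, f x < d := fun h => hf (Or.inr h)
    push Not at h1
    obtain ⟨x, hx, hdx⟩ := h1
    refine ⟨f + BoundedContinuousFunction.const X (ε / 2), ?_, Or.inl ⟨x, hx, ?_⟩⟩
    · rw [Metric.mem_ball, dist_eq_norm, add_sub_cancel_left]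
      refine lt_of_le_of_lt (BoundedContinuousFunction.norm_const_le _) ?_
      rw [Real.norm_eq_abs, abs_of_pos (by linarith)]
      linarith
    · have h2 : (f + BoundedContinuousFunction.const X (ε / 2)) x = f x + ε / 2 := rfl
      rw [h2]
      linarith

/-- A residual set of rigid bounded continuous functions with dense sets of local maxima, none of
whose local maximum values belongs to a given countable set. -/
theorem residual_good (X : Type) [TopologicalSpace X] [T2Space X] [LocallyCompactSpace X]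
    [SecondCountableTopology X] (D : Set ℝ) (hD : D.Countable) :
    ∀ᶠ g : X →ᵇ ℝ in residual (X →ᵇ ℝ), (∀ T : X ≃ₜ X, (∀ p, g (T p) = g p) → T = 1) ∧
      (∀ O : Set X, IsOpen O → O.Nonempty → ∃ z ∈ O, IsLM g z) ∧
      ∀ z, IsLM g z → g z ∉ D := by
  classical
  let B := TopologicalSpace.countableBasis X
  have hBc : B.Countable := TopologicalSpace.countable_countableBasis X
  have hBb := TopologicalSpace.isBasis_countableBasis X
  have hBo : ∀ U ∈ B, IsOpen U := fun U hU => TopologicalSpace.isOpen_of_mem_countableBasis hU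
  have hBn : ∀ U ∈ B, U.Nonempty := fun U hU => TopologicalSpace.nonempty_of_mem_countableBasis hU
  let S : Set (Set X × Set X) := {p | p.1 ∈ B ∧ p.2 ∈ B ∧ IsCompact (closure p.1) ∧
    IsCompact (closure p.2) ∧ Disjoint (closure p.1) (closure p.2)}
  have hSc : S.Countable := by
    refine (hBc.prod hBc).mono ?_
    intro p hp
    exact mk_mem_prod hp.1 hp.2.1
  let R : Set (Set X × ℝ) := {p | p.1 ∈ B ∧ p.2 ∈ D ∧ IsCompact (closure p.1)}
  have hRc : R.Countable := by
    refine (hBc.prod hD).mono ?_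
    intro p hp
    exact mk_mem_prod hp.1 hp.2.1
  have e1 : ∀ᶠ g in residual (X →ᵇ ℝ), ∀ U ∈ B, g ∈ peak U :=
    (eventually_countable_ball hBc).2 fun U hU =>
      residual_of_dense_open (isOpen_peak U) (dense_peak (hBo U hU) (hBn U hU))
  have e2 : ∀ᶠ g in residual (X →ᵇ ℝ), ∀ p ∈ S, g ∈ differ (closure p.1) (closure p.2) :=
    (eventually_countable_ball hSc).2 fun p hp =>
      residual_of_dense_open (isOpen_differ hp.2.2.1 hp.2.2.2.1)
        (dense_differ hp.2.2.1 hp.2.2.2.1 ((hBn _ hp.1).mono subset_closure) hp.2.2.2.2)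
  have e3 : ∀ᶠ g in residual (X →ᵇ ℝ), ∀ p ∈ R, g ∈ avoid (closure p.1) p.2 :=
    (eventually_countable_ball hRc).2 fun p hp =>
      residual_of_dense_open (isOpen_avoid hp.2.2 _) (dense_avoid _ _)
  filter_upwards [e1, e2, e3] with g hg1 hg2 hg3
  have small : ∀ (x : X) (N : Set X), N ∈ 𝓝 x → ∃ U ∈ B, x ∈ U ∧ closure U ⊆ N ∧
      IsCompact (closure U) := by
    intro x N hN
    obtain ⟨C, hCx, hCN, hC⟩ := local_compact_nhds hN
    obtain ⟨U, hU, hxU, hUC⟩ := hBb.mem_nhds_iff.mp hCx
    have h := closure_minimal hUC hC.isClosed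
    exact ⟨U, hU, hxU, h.trans hCN, hC.of_isClosed_subset isClosed_closure h⟩
  have hpeak : ∀ O : Set X, IsOpen O → O.Nonempty → ∃ z ∈ O, IsLM g z := by
    rintro O hO ⟨x, hx⟩
    obtain ⟨U, hU, hxU, hUO⟩ := hBb.exists_subset_of_mem_open hx hO
    obtain ⟨K, V, w, hK, hV, hKU, hVK, hwV, hlt⟩ := hg1 U hU
    obtain ⟨z, hz, hmax⟩ := hK.exists_isMaxOn ⟨w, hVK hwV⟩ g.continuous.continuousOn
    have hzV : z ∈ V := by
      by_contra hzV
      have h3 := hlt z ⟨hz, hzV⟩
      have h4 : g w ≤ g z := hmax (hVK hwV)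
      linarith
    exact ⟨z, hUO (hKU hz), V, hV.mem_nhds hzV, fun y hy => hmax (hVK hy)⟩
  refine ⟨fun T hT => ?_, hpeak, ?_⟩
  · have key : ∀ z : X, (∃ W ∈ 𝓝 z, ∀ y ∈ W, g y ≤ g z) → T z = z := by
      rintro z ⟨W, hW, hmax⟩
      by_contra hne
      have hmax' : ∀ y ∈ T.symm ⁻¹' W, g y ≤ g (T z) := by
        intro y hy
        have := hT (T.symm y)
        rw [T.apply_symm_apply] at this
        rw [this, hT z]
        exact hmax _ hy
      have hW' : T.symm ⁻¹' W ∈ 𝓝 (T z) := by
        apply T.symm.continuous.continuousAt.preimage_mem_nhds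
        rw [T.symm_apply_apply]; exact hW
      obtain ⟨P, Q, hP, hQ, hzP, hzQ, hPQ⟩ := t2_separation (fun h => hne h.symm : z ≠ T z)
      obtain ⟨U, hU, hzU, hUN, hUc⟩ := small z (W ∩ P) (Filter.inter_mem hW (hP.mem_nhds hzP))
      obtain ⟨V, hV, hzV, hVN, hVc⟩ := small (T z) (T.symm ⁻¹' W ∩ Q)
        (Filter.inter_mem hW' (hQ.mem_nhds hzQ))
      have hdis : Disjoint (closure U) (closure V) :=
        hPQ.mono (fun y hy => (hUN hy).2) (fun y hy => (hVN hy).2)
      have hd := hg2 (U, V) ⟨hU, hV, hUc, hVc, hdis⟩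
      rcases hd with ⟨x, hx, h⟩ | ⟨x, hx, h⟩
      · have h3 := h (T z) (subset_closure hzV)
        have h4 := hmax x (hUN hx).1
        rw [hT z] at h3
        linarith
      · have h3 := h z (subset_closure hzU)
        have h4 := hmax' x (hVN hx).1
        rw [hT z] at h4
        linarith
    have hden : Dense {z | T z = z} := by
      rw [dense_iff_inter_open]
      intro O hO hOne
      obtain ⟨z, hz, hlm⟩ := hpeak O hO hOne
      exact ⟨z, hz, key z hlm⟩
    have hcl : IsClosed {z | T z = z} := isClosed_eq T.continuous continuous_id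
    have huniv := hcl.closure_eq ▸ hden.closure_eq
    ext z
    exact (huniv.symm ▸ mem_univ z : z ∈ {z | T z = z})
  · rintro z ⟨W, hW, hmax⟩ hzD
    obtain ⟨U, hU, hzU, hUW, hUc⟩ := small z W hW
    rcases hg3 (U, g z) ⟨hU, hzD, hUc⟩ with ⟨x, hx, h⟩ | h
    · exact absurd (hmax x (hUW hx)) (not_le.2 h)
    · exact lt_irrefl _ (h z (subset_closure hzU))

section Sum

variable {M M' : Type} [TopologicalSpace M] [TopologicalSpace M']

/-- no homeomorphism preserving `f ⊔ g` moves a point of `M` to `M'` -/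
theorem stay (f : M → ℝ) (g : M' → ℝ)
    (hd : ∀ O : Set M', IsOpen O → O.Nonempty → ∃ z ∈ O, IsLM g z)
    (hne : ∀ z z', IsLM f z → IsLM g z' → f z ≠ g z')
    (T : (M ⊕ M') ≃ₜ (M ⊕ M')) (hT : ∀ p, Sum.elim f g (T p) = Sum.elim f g p) (x : M) :
    ∃ x', T (Sum.inl x) = Sum.inl x' := by
  rcases hx : T (Sum.inl x) with x' | y
  · exact ⟨x', rfl⟩
  exfalso
  let O : Set M' := {y : M' | T.symm (Sum.inr y) ∈ range (Sum.inl : M → M ⊕ M')}
  have hO : IsOpen O :=
    isOpen_range_inl.preimage (T.symm.continuous.comp continuous_inr)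
  have hyO : y ∈ O := by
    refine ⟨x, ?_⟩
    rw [← hx, T.symm_apply_apply]
  obtain ⟨z, ⟨x', hx'⟩, W, hW, hmax⟩ := hd O hO ⟨y, hyO⟩
  have hTx' : T (Sum.inl x') = Sum.inr z := by
    rw [hx', T.apply_symm_apply]
  have hval : f x' = g z := by
    have := hT (Sum.inl x')
    rw [hTx'] at this
    exact this.symm
  refine hne x' z ?_ ⟨W, hW, hmax⟩ hval
  refine ⟨{u : M | T (Sum.inl u) ∈ Sum.inr '' W}, ?_, ?_⟩
  · have h1 : (Sum.inr '' W : Set (M ⊕ M')) ∈ 𝓝 (T (Sum.inl x')) := by
      rw [hTx']
      exact isOpenMap_inr.image_mem_nhds hW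
    exact (T.continuous.comp continuous_inl).continuousAt.preimage_mem_nhds h1
  · rintro u ⟨w, hw, hwu⟩
    have h2 := hT (Sum.inl u)
    rw [← hwu] at h2
    have h3 : g w = f u := h2
    rw [← h3, hval]
    exact hmax w hw

/-- Disjoint union with a rigid piece whose local maximum values are different from those of `f`. -/
theorem sum_equiv' (f : M → ℝ) (g : M' → ℝ)
    (hg : ∀ T : M' ≃ₜ M', (∀ p, g (T p) = g p) → T = 1)
    (hd : ∀ O : Set M', IsOpen O → O.Nonempty → ∃ z ∈ O, IsLM g z)
    (hne : ∀ z z', IsLM f z → IsLM g z' → f z ≠ g z') :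
    ∃ φ : levelGroup f ≃* levelGroup (Sum.elim f g),
      ∀ T, (φ T).1 = T.1.sumCongr (Homeomorph.refl M') := by
  let φ : levelGroup f →* levelGroup (Sum.elim f g) :=
    { toFun := fun T => ⟨T.1.sumCongr (Homeomorph.refl M'), by
        rintro (x | y)
        · exact T.2 x
        · rfl⟩
      map_one' := by
        apply Subtype.ext
        ext p
        rcases p with x | y <;> rfl
      map_mul' := by
        intro S T
        apply Subtype.ext
        ext p
        rcases p with x | y <;> rfl }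
  have hφl : ∀ T x, (φ T).1 (Sum.inl x) = Sum.inl (T.1 x) := fun T x => rfl
  refine ⟨MulEquiv.ofBijective φ ⟨?_, ?_⟩, fun T => rfl⟩
  · intro S T hST
    apply Subtype.ext
    ext x
    have h1 := hφl S x
    rw [hST, hφl T x] at h1
    exact (Sum.inl.inj h1).symm
  · rintro ⟨S, hS⟩
    have hS' : ∀ p, Sum.elim f g (S p) = Sum.elim f g p := hS
    have hS'' : ∀ p, Sum.elim f g (S.symm p) = Sum.elim f g p := by
      intro p
      have := hS' (S.symm p)
      rw [S.apply_symm_apply] at this
      exact this.symm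
    have a1 := stay f g hd hne S hS'
    have a2 := stay f g hd hne S.symm hS''
    have norm : ∀ S : (M ⊕ M') ≃ₜ (M ⊕ M'), (∀ z : M, ∃ x, S.symm (Sum.inl z) = Sum.inl x) →
        ∀ z : M', ∃ x, S (Sum.inr z) = Sum.inr x := by
      intro S a2 z
      rcases hz : S (Sum.inr z) with x | y
      · exfalso
        obtain ⟨x', hx'⟩ := a2 x
        rw [← hz, S.symm_apply_apply] at hx'
        exact Sum.inr_ne_inl hx'
      · exact ⟨y, rfl⟩
    have b1 := norm S a2
    have b2 := norm S.symm a1
    obtain ⟨T, hT⟩ := exists_restr_left S a1 a2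
    obtain ⟨R, hR⟩ := exists_restr_right S b1 b2
    have hR1 : R = 1 := by
      apply hg
      intro p
      have := hS' (Sum.inr p)
      rw [hR p] at this
      exact this
    refine ⟨⟨T, fun p => ?_⟩, ?_⟩
    · have := hS' (Sum.inl p)
      rw [hT p] at this
      exact this
    · apply Subtype.ext
      ext p
      rcases p with x | y
      · exact (hT x).symm
      · have := hR y
        rw [hR1] at this
        exact this.symm

/-- For generic `g` on `M'` the group of `f ⊔ g` is the group of `f`, extended by the identity. -/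
theorem sum_generic [SecondCountableTopology M] [T2Space M'] [LocallyCompactSpace M']
    [SecondCountableTopology M'] (f : M → ℝ) :
    ∀ᶠ g : M' →ᵇ ℝ in residual (M' →ᵇ ℝ),
      ∃ φ : levelGroup f ≃* levelGroup (Sum.elim f (g : M' → ℝ)),
      ∀ T, (φ T).1 = T.1.sumCongr (Homeomorph.refl M') := by
  filter_upwards [residual_good M' _ (lm_countable f)] with g hg
  exact sum_equiv' f g hg.1 hg.2.1 fun z z' hz hz' h => hg.2.2 z' hz' ⟨z, hz, h⟩

/-- every continuous function on a second countable space `M` extends to `M ⊔ M'` without changing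
the group -/
theorem sum_main [SecondCountableTopology M] [T2Space M'] [LocallyCompactSpace M']
    [SecondCountableTopology M'] (f : M → ℝ) :
    ∃ g : M' → ℝ, Continuous g ∧ ∃ φ : levelGroup f ≃* levelGroup (Sum.elim f g),
      ∀ T, (φ T).1 = T.1.sumCongr (Homeomorph.refl M') := by
  obtain ⟨g, hg⟩ := (dense_of_mem_residual (sum_generic (M' := M') f)).nonempty
  exact ⟨g, g.continuous, hg⟩

end Sum

/-! ### transport -/

/-- conjugation by a homeomorphism -/
noncomputable def transport {X Y : Type} [TopologicalSpace X] [TopologicalSpace Y] (e : X ≃ₜ Y)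
    (F : X → ℝ) : levelGroup F ≃* levelGroup (F ∘ e.symm) where
  toFun T := ⟨(e.symm.trans T.1).trans e, fun p => by
    change F (e.symm (e (T.1 (e.symm p)))) = F (e.symm p)
    rw [e.symm_apply_apply]
    exact T.2 _⟩
  invFun S := ⟨(e.trans S.1).trans e.symm, fun p => by
    have h := S.2 (e p)
    change F (e.symm (S.1 (e p))) = F (e.symm (e p)) at h
    rw [e.symm_apply_apply] at h
    exact h⟩
  left_inv T := by
    apply Subtype.ext
    ext p
    change e.symm (e (T.1 (e.symm (e p)))) = T.1 p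
    rw [e.symm_apply_apply, e.symm_apply_apply]
  right_inv S := by
    apply Subtype.ext
    ext p
    change e (e.symm (S.1 (e (e.symm p)))) = S.1 p
    rw [e.apply_symm_apply, e.apply_symm_apply]
  map_mul' S T := by
    apply Subtype.ext
    ext p
    change e (S.1 (T.1 (e.symm p))) = e (S.1 (e.symm (e (T.1 (e.symm p)))))
    rw [e.symm_apply_apply]

theorem transport_apply {X Y : Type} [TopologicalSpace X] [TopologicalSpace Y] (e : X ≃ₜ Y)
    (F : X → ℝ) (T : levelGroup F) (p : Y) :
    ((transport e F T).1 : Y ≃ₜ Y) p = e (T.1 (e.symm p)) := rfl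

/-- a space is the disjoint union of a clopen subset and its complement -/
noncomputable def clopenSum {N : Type} [TopologicalSpace N] (U : Set N) (hU : IsClopen U) :
    (U ⊕ (Uᶜ : Set N)) ≃ₜ N := by
  classical
  exact (Equiv.Set.sumCompl U).toHomeomorphOfContinuousOpen
    (by
      have h : ((Equiv.Set.sumCompl U : (U ⊕ (Uᶜ : Set N)) ≃ N) : (U ⊕ (Uᶜ : Set N)) → N) =
          Sum.elim Subtype.val Subtype.val := by
        funext p
        rcases p with x | y <;> rfl
      rw [h]
      exact Continuous.sumElim continuous_subtype_val continuous_subtype_val)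
    (by
      have h : ((Equiv.Set.sumCompl U : (U ⊕ (Uᶜ : Set N)) ≃ N) : (U ⊕ (Uᶜ : Set N)) → N) =
          Sum.elim Subtype.val Subtype.val := by
        funext p
        rcases p with x | y <;> rfl
      rw [h]
      exact IsOpenMap.sumElim hU.isOpen.isOpenMap_subtype_val
        hU.compl.isOpen.isOpenMap_subtype_val)

theorem clopenSum_inl {N : Type} [TopologicalSpace N] (U : Set N) (hU : IsClopen U) (x : U) :
    clopenSum U hU (Sum.inl x) = x := rfl

theorem clopenSum_inr {N : Type} [TopologicalSpace N] (U : Set N) (hU : IsClopen U)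
    (x : (Uᶜ : Set N)) : clopenSum U hU (Sum.inr x) = x := rfl

theorem clopenSum_symm_of_mem {N : Type} [TopologicalSpace N] (U : Set N) (hU : IsClopen U)
    (x : U) : (clopenSum U hU).symm x = Sum.inl x := by
  rw [Homeomorph.symm_apply_eq, clopenSum_inl]

theorem clopenSum_symm_of_not_mem {N : Type} [TopologicalSpace N] (U : Set N) (hU : IsClopen U)
    (x : (Uᶜ : Set N)) : (clopenSum U hU).symm x = Sum.inr x := by
  rw [Homeomorph.symm_apply_eq, clopenSum_inr]

/-- **Generic extension.** A continuous function on a clopen subset `U`, extended by a generic bounded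
continuous function on the complement: the level-preserving homeomorphisms are exactly those of `U`,
extended by the identity. -/
theorem clopen_generic {N : Type} [TopologicalSpace N] [T2Space N] [LocallyCompactSpace N]
    [SecondCountableTopology N] (U : Set N) (hU : IsClopen U) (f₀ : U → ℝ) (hf₀ : Continuous f₀) :
    ∀ᶠ g : (Uᶜ : Set N) →ᵇ ℝ in residual ((Uᶜ : Set N) →ᵇ ℝ),
      ∃ f : N → ℝ, Continuous f ∧ (∀ x : U, f x = f₀ x) ∧ (∀ y : (Uᶜ : Set N), f y = g y) ∧
        ∃ φ : levelGroup f₀ ≃* levelGroup f, ∀ T : levelGroup f₀,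
          (∀ x : U, (φ T).1 (x : N) = T.1 x) ∧ ∀ y : N, y ∉ U → (φ T).1 y = y := by
  have : LocallyCompactSpace (Uᶜ : Set N) :=
    hU.compl.isOpen.locallyCompactSpace
  filter_upwards [sum_generic (M := U) (M' := (Uᶜ : Set N)) f₀] with g hg
  obtain ⟨φ, hφ⟩ := hg
  refine ⟨Sum.elim f₀ g ∘ (clopenSum U hU).symm,
    (hf₀.sumElim g.continuous).comp (clopenSum U hU).symm.continuous, fun x => ?_, fun y => ?_,
    φ.trans (transport (clopenSum U hU) (Sum.elim f₀ g)), fun T => ⟨fun x => ?_, fun y hy => ?_⟩⟩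
  · change Sum.elim f₀ g ((clopenSum U hU).symm x) = f₀ x
    rw [clopenSum_symm_of_mem]
    rfl
  · change Sum.elim f₀ g ((clopenSum U hU).symm y) = g y
    rw [clopenSum_symm_of_not_mem]
    rfl
  · change clopenSum U hU ((φ T).1 ((clopenSum U hU).symm x)) = T.1 x
    rw [clopenSum_symm_of_mem, hφ T]
    rfl
  · change clopenSum U hU ((φ T).1 ((clopenSum U hU).symm y)) = y
    have h := clopenSum_symm_of_not_mem U hU ⟨y, hy⟩
    have h' : (clopenSum U hU).symm y = Sum.inr ⟨y, hy⟩ := h
    rw [h', hφ T]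
    rfl

/-- Every continuous function on a clopen subset `U` extends to the whole space in such a way that
the level-preserving homeomorphisms are exactly those of `U`, extended by the identity. -/
theorem clopen_main {N : Type} [TopologicalSpace N] [T2Space N] [LocallyCompactSpace N]
    [SecondCountableTopology N] (U : Set N) (hU : IsClopen U) (f₀ : U → ℝ) (hf₀ : Continuous f₀) :
    ∃ f : N → ℝ, Continuous f ∧ (∀ x : U, f x = f₀ x) ∧
      ∃ φ : levelGroup f₀ ≃* levelGroup f, ∀ T : levelGroup f₀,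
        (∀ x : U, (φ T).1 (x : N) = T.1 x) ∧ ∀ y : N, y ∉ U → (φ T).1 y = y := by
  obtain ⟨g, f, h1, h2, -, h4⟩ := (dense_of_mem_residual (clopen_generic U hU f₀ hf₀)).nonempty
  exact ⟨f, h1, h2, h4⟩

end Pool.Agent.Y446.LG
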