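import Pool.Agent.Y446.LG.Base

/-!
Components, open subsets of manifolds, and a homeomorphism different from the identity.
-/

set_option autoImplicit false

namespace Pool.Agent.Y446.LG

open Set Topology
open Pool.Agent.Results.MP_b004e2_gt.LevelGroups

/-- a space with finitely many components is not homeomorphic to a proper clopen subset -/
theorem isEmpty_homeo {N : Type} [TopologicalSpace N] [Finite (ConnectedComponents N)]
    (U : Set N) (hU : IsClopen U) (hne : U ≠ univ) : IsEmpty (U ≃ₜ N) := by
  constructor
  intro e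
  have hsub : ∀ y : U, connectedComponent (y : N) ⊆ U := fun y =>
    isPreconnected_connectedComponent.subset_isClopen hU ⟨y, mem_connectedComponent, y.2⟩
  let ι : ConnectedComponents U → ConnectedComponents N :=
    (continuous_subtype_val (p := (· ∈ U))).connectedComponentsMap
  have hι : ∀ x : U, ι (x : ConnectedComponents U) = ((x : N) : ConnectedComponents N) :=
    fun x => rfl
  have hinj : Function.Injective ι := by
    intro a b hab
    obtain ⟨x, rfl⟩ := ConnectedComponents.surjective_coe a
    obtain ⟨y, rfl⟩ := ConnectedComponents.surjective_coe b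
    rw [hι, hι, ConnectedComponents.coe_eq_coe'] at hab
    rw [ConnectedComponents.coe_eq_coe']
    have hpre : IsPreconnected (Subtype.val ⁻¹' connectedComponent (y : N) : Set U) := by
      refine IsPreconnected.preimage_of_isClosedMap isPreconnected_connectedComponent
        Subtype.val_injective hU.isClosed.isClosedMap_subtype_val ?_
      rw [Subtype.range_coe]
      exact hsub y
    exact hpre.subset_connectedComponent (x := y) mem_connectedComponent hab
  let ε : ConnectedComponents N ≃ ConnectedComponents U :=
    { toFun := e.symm.continuous.connectedComponentsMap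
      invFun := e.continuous.connectedComponentsMap
      left_inv := by
        intro a
        obtain ⟨x, rfl⟩ := ConnectedComponents.surjective_coe a
        rw [Continuous.connectedComponentsMap_mk, Continuous.connectedComponentsMap_mk,
          e.apply_symm_apply]
      right_inv := by
        intro a
        obtain ⟨x, rfl⟩ := ConnectedComponents.surjective_coe a
        rw [Continuous.connectedComponentsMap_mk, Continuous.connectedComponentsMap_mk,
          e.symm_apply_apply] }
  have hinj2 : Function.Injective (fun a => ι (ε a)) := hinj.comp ε.injective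
  have hsurj2 : Function.Surjective (fun a => ι (ε a)) := Finite.surjective_of_injective hinj2
  obtain ⟨z, hz⟩ := (ne_univ_iff_exists_notMem U).1 hne
  obtain ⟨a, ha⟩ := hsurj2 (z : ConnectedComponents N)
  obtain ⟨x, hx⟩ := ConnectedComponents.surjective_coe (ε a)
  have h1 : ((x : N) : ConnectedComponents N) = (z : ConnectedComponents N) := by
    rw [← hι, hx]
    exact ha
  rw [eq_comm, ConnectedComponents.coe_eq_coe'] at h1
  exact hz (hsub x h1)

/-- open subsets of manifolds are manifolds -/
theorem manifold_open {n : ℕ} {N : Type} [TopologicalSpace N] (h : IsTopManifold n N) (U : Set N)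
    (hU : IsOpen U) : IsTopManifold n U := by
  have := h.t2
  have := h.secondCountable
  refine ⟨inferInstance, inferInstance, fun x => ?_⟩
  obtain ⟨e, he⟩ := h.locallyEuclidean x
  refine ⟨e.subtypeRestr (s := ⟨U, hU⟩) ⟨x⟩, ?_⟩
  rw [OpenPartialHomeomorph.subtypeRestr_source]
  exact he

theorem manifold_locConn {n : ℕ} {M : Type} [TopologicalSpace M] (h : IsTopManifold n M) :
    LocallyConnectedSpace M := by
  choose e he using h.locallyEuclidean
  let c : ChartedSpace (EuclideanSpace ℝ (Fin n)) M :=
    { atlas := range e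
      chartAt := e
      mem_chart_source := he
      chart_mem_atlas := fun x => ⟨x, rfl⟩ }
  exact ChartedSpace.locallyConnectedSpace (EuclideanSpace ℝ (Fin n)) M

/-- a zero-dimensional manifold is discrete -/
theorem discrete_of_zero {M : Type} [TopologicalSpace M] (h : IsTopManifold 0 M) :
    DiscreteTopology M := by
  rw [discreteTopology_iff_isOpen_singleton]
  intro x
  obtain ⟨e, he⟩ := h.locallyEuclidean x
  have h1 : e.source = {x} := by
    ext y
    constructor
    · intro hy
      rw [mem_singleton_iff, ← e.left_inv hy, Subsingleton.elim (e y) (e x), e.left_inv he]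
    · rintro rfl
      exact he
  rw [← h1]
  exact e.open_source

/-! ### a homeomorphism supported in a chart -/

/-- A homeomorphism of a Euclidean space of positive dimension supported in a small ball. -/
theorem exists_bump_homeo (k : ℕ) (a : EuclideanSpace ℝ (Fin (k + 1))) {r : ℝ} (hr : 0 < r) :
    ∃ h : EuclideanSpace ℝ (Fin (k + 1)) ≃ₜ EuclideanSpace ℝ (Fin (k + 1)),
      h a ≠ a ∧ ∀ y, y ∉ Metric.closedBall a r → h y = y := by
  obtain ⟨v, hv⟩ : ∃ v : EuclideanSpace ℝ (Fin (k + 1)), ‖v‖ = 1 := exists_norm_eq _ zero_le_one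
  let ρ : EuclideanSpace ℝ (Fin (k + 1)) → ℝ := fun y => max 0 (r - dist y a)
  have hρ : ∀ x y, |ρ x - ρ y| ≤ dist x y := by
    intro x y
    have h1 : |max (0 : ℝ) (r - dist x a) - max 0 (r - dist y a)| ≤
        |(r - dist x a) - (r - dist y a)| := by
      rw [max_comm 0 (r - dist x a), max_comm 0 (r - dist y a)]
      exact abs_max_sub_max_le_abs _ _ _
    refine h1.trans ?_
    have h2 : (r - dist x a) - (r - dist y a) = dist y a - dist x a := by ring
    rw [h2, abs_sub_comm]
    exact abs_dist_sub_le x y a
  let F : EuclideanSpace ℝ (Fin (k + 1)) → EuclideanSpace ℝ (Fin (k + 1)) :=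
    fun y => y + (1 / 2 * ρ y) • v
  have hF : ApproximatesLinearOn F
      ((ContinuousLinearEquiv.refl ℝ (EuclideanSpace ℝ (Fin (k + 1))) :
        EuclideanSpace ℝ (Fin (k + 1)) ≃L[ℝ] EuclideanSpace ℝ (Fin (k + 1))) :
        EuclideanSpace ℝ (Fin (k + 1)) →L[ℝ] EuclideanSpace ℝ (Fin (k + 1))) univ (1 / 2) := by
    intro x _ y _
    have h1 : F x - F y - ((ContinuousLinearEquiv.refl ℝ (EuclideanSpace ℝ (Fin (k + 1))) :
        EuclideanSpace ℝ (Fin (k + 1)) ≃L[ℝ] EuclideanSpace ℝ (Fin (k + 1))) :
        EuclideanSpace ℝ (Fin (k + 1)) →L[ℝ] EuclideanSpace ℝ (Fin (k + 1))) (x - y) =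
        (1 / 2 * (ρ x - ρ y)) • v := by
      simp only [F, ContinuousLinearEquiv.coe_coe, ContinuousLinearEquiv.coe_refl', id]
      module
    rw [h1, norm_smul, hv, mul_one, Real.norm_eq_abs, abs_mul, abs_of_pos (by norm_num : (0 : ℝ) < 1 / 2)]
    have h2 := hρ x y
    rw [dist_eq_norm] at h2
    have h3 : ((1 / 2 : NNReal) : ℝ) = 1 / 2 := by norm_num
    rw [h3]
    linarith
  have hN : ‖((ContinuousLinearEquiv.refl ℝ (EuclideanSpace ℝ (Fin (k + 1)))).symm :
        EuclideanSpace ℝ (Fin (k + 1)) →L[ℝ] EuclideanSpace ℝ (Fin (k + 1)))‖₊ ≤ 1 := by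
    rw [← NNReal.coe_le_coe]
    exact ContinuousLinearMap.norm_id_le
  have hc : (1 / 2 : NNReal) < ‖((ContinuousLinearEquiv.refl ℝ (EuclideanSpace ℝ (Fin (k + 1)))).symm :
        EuclideanSpace ℝ (Fin (k + 1)) →L[ℝ] EuclideanSpace ℝ (Fin (k + 1)))‖₊⁻¹ := by
    have h1 : ‖((ContinuousLinearEquiv.refl ℝ (EuclideanSpace ℝ (Fin (k + 1)))).symm :
        EuclideanSpace ℝ (Fin (k + 1)) →L[ℝ] EuclideanSpace ℝ (Fin (k + 1)))‖₊ = 1 := by
      apply NNReal.eq
      have : ((ContinuousLinearEquiv.refl ℝ (EuclideanSpace ℝ (Fin (k + 1)))).symm :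
        EuclideanSpace ℝ (Fin (k + 1)) →L[ℝ] EuclideanSpace ℝ (Fin (k + 1))) =
          ContinuousLinearMap.id ℝ _ := rfl
      rw [coe_nnnorm, this, ContinuousLinearMap.norm_id]
      rfl
    rw [h1, inv_one]
    rw [← NNReal.coe_lt_coe]
    norm_num
  refine ⟨hF.toHomeomorph F (Or.inr hc), ?_, fun y hy => ?_⟩
  · change a + (1 / 2 * ρ a) • v ≠ a
    intro h
    rw [add_eq_left, smul_eq_zero] at h
    rcases h with h | h
    · have : ρ a = r := by
        change max 0 (r - dist a a) = r
        rw [dist_self, sub_zero, max_eq_right hr.le]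
      rw [this] at h
      linarith
    · rw [h, norm_zero] at hv
      exact zero_ne_one hv
  · change y + (1 / 2 * ρ y) • v = y
    have : ρ y = 0 := by
      change max 0 (r - dist y a) = 0
      apply max_eq_left
      rw [Metric.mem_closedBall, not_le] at hy
      linarith
    rw [this, mul_zero, zero_smul, add_zero]

section Chart

variable {M E : Type} [TopologicalSpace M] [T2Space M] [TopologicalSpace E]

open scoped Classical in
/-- `h` read in the chart `c`, extended by the identity -/
noncomputable def ext (c : OpenPartialHomeomorph M E) (h : E → E) (x : M) : M :=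
  if x ∈ c.source then c.symm (h (c x)) else x

theorem ext_continuous (c : OpenPartialHomeomorph M E) (K : Set E) (hK : IsCompact K)
    (hKc : K ⊆ c.target) (h : E → E) (hh : Continuous h) (hid : ∀ y, y ∉ K → h y = y)
    (hmap : ∀ y ∈ c.target, h y ∈ c.target) : Continuous (ext c h) := by
  have hKM : IsClosed (c.symm '' K) :=
    (hK.image_of_continuousOn (c.continuousOn_symm.mono hKc)).isClosed
  rw [continuous_iff_continuousAt]
  intro x
  by_cases hx : x ∈ c.source
  · have h1 : ContinuousAt (fun y => c.symm (h (c y))) x := by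
      have h2 : ContinuousAt c x := c.continuousAt hx
      have h3 : ContinuousAt h (c x) := hh.continuousAt
      have h4 : ContinuousAt c.symm (h (c x)) := c.continuousAt_symm (hmap _ (c.map_source hx))
      exact ContinuousAt.comp (f := fun y => h (c y)) h4 (ContinuousAt.comp (f := c) h3 h2)
    refine h1.congr ?_
    filter_upwards [c.open_source.mem_nhds hx] with y hy
    unfold ext
    rw [if_pos hy]
  · have hxK : x ∈ (c.symm '' K)ᶜ := by
      rintro ⟨y, hy, rfl⟩
      exact hx (c.map_target (hKc hy))
    refine continuousAt_id.congr ?_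
    filter_upwards [hKM.isOpen_compl.mem_nhds hxK] with y hy
    unfold ext
    split_ifs with hys
    · have hcy : c y ∉ K := fun hc => hy ⟨c y, hc, c.left_inv hys⟩
      rw [hid _ hcy, c.left_inv hys]
      rfl
    · rfl

theorem ext_comp (c : OpenPartialHomeomorph M E) (h h' : E → E)
    (hmap : ∀ y ∈ c.target, h y ∈ c.target) (hinv : ∀ y, h' (h y) = y) (x : M) :
    ext c h' (ext c h x) = x := by
  by_cases hx : x ∈ c.source
  · have h1 : ext c h x = c.symm (h (c x)) := by unfold ext; rw [if_pos hx]
    have h2 : h (c x) ∈ c.target := hmap _ (c.map_source hx)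
    have h3 : c.symm (h (c x)) ∈ c.source := c.map_target h2
    rw [h1]
    unfold ext
    rw [if_pos h3, c.right_inv h2, hinv, c.left_inv hx]
  · have h1 : ext c h x = x := by unfold ext; rw [if_neg hx]
    rw [h1]
    unfold ext
    rw [if_neg hx]

end Chart

/-- Every manifold with at least two points has a self-homeomorphism different from the identity. -/
theorem exists_ne_one {n : ℕ} {M : Type} [TopologicalSpace M] (hM : IsTopManifold n M)
    (h2 : ∃ p q : M, p ≠ q) : ∃ T : M ≃ₜ M, T ≠ 1 := by
  classical
  obtain ⟨p, q, hpq⟩ := h2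
  rcases n with _ | k
  · have := discrete_of_zero hM
    refine ⟨(Equiv.swap p q).toHomeomorphOfDiscrete, fun h => hpq ?_⟩
    have h1 := congrArg (fun T : M ≃ₜ M => T p) h
    have h3 : Equiv.swap p q p = p := h1
    rw [Equiv.swap_apply_left] at h3
    exact h3.symm
  · have := hM.t2
    obtain ⟨c, hc⟩ := hM.locallyEuclidean p
    obtain ⟨r, hr, hball⟩ := Metric.isOpen_iff.1 c.open_target (c p) (c.map_source hc)
    have hK : Metric.closedBall (c p) (r / 2) ⊆ c.target :=
      (Metric.closedBall_subset_ball (by linarith)).trans hball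
    obtain ⟨h, hne, hid⟩ := exists_bump_homeo k (c p) (r := r / 2) (by linarith)
    have hid' : ∀ y, y ∉ Metric.closedBall (c p) (r / 2) → h.symm y = y := by
      intro y hy
      rw [Homeomorph.symm_apply_eq, hid y hy]
    have hmapK : ∀ (g : EuclideanSpace ℝ (Fin (k + 1)) ≃ₜ EuclideanSpace ℝ (Fin (k + 1))),
        (∀ y, y ∉ Metric.closedBall (c p) (r / 2) → g y = y) →
        ∀ y ∈ c.target, g y ∈ c.target := by
      intro g hg y hy
      by_cases hyK : g y ∈ Metric.closedBall (c p) (r / 2)
      · exact hK hyK
      · have h1 : g (g y) = g y := hg _ hyK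
        rw [g.injective h1]
        exact hy
    have hcomp : IsCompact (Metric.closedBall (c p) (r / 2)) := isCompact_closedBall _ _
    let T : M ≃ₜ M :=
      { toFun := ext c h
        invFun := ext c h.symm
        left_inv := ext_comp c h h.symm (hmapK h hid) h.symm_apply_apply
        right_inv := ext_comp c h.symm h (hmapK h.symm hid') h.apply_symm_apply
        continuous_toFun := ext_continuous c _ hcomp hK h h.continuous hid (hmapK h hid)
        continuous_invFun := ext_continuous c _ hcomp hK h.symm h.symm.continuous hid'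
          (hmapK h.symm hid') }
    refine ⟨T, fun hT => hne ?_⟩
    have h1 := congrArg (fun T : M ≃ₜ M => T p) hT
    have h3 : ext c h p = p := h1
    unfold ext at h3
    rw [if_pos hc] at h3
    have h4 : c (c.symm (h (c p))) = c p := congrArg c h3
    rwa [c.right_inv (hmapK h hid _ (c.map_source hc))] at h4

end Pool.Agent.Y446.LG
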